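import Pool.Agent.Run7.h16.LH.Def

/-!
Closure properties of a class of groups: extensions with kernels detected by homomorphisms.
-/

namespace Run7.h16.GE

open Run7.h16.LH

/-- Closure properties of the class `C` for extensions. -/
structure ClosedExtensions (C : ∀ (G : Type) [Group G], Prop) : Prop where
  /-- Let `H` be a subgroup of finite index in `G`, and `K` a normal subgroup of `H` with `H / K` in
  the class. If the rational homology of `K` is detected by homomorphisms from `H` to groups in the
  class, then `G` is in the class. -/
  detected : ∀ (G : Type) [Group G] (H : Subgroup G) [H.FiniteIndex] (K : Subgroup H) [K.Normal],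
    C (H ⧸ K) → Detected C K → C G
  /-- The same, if `H_j(K; ℚ) → H_j(K^{ab}; ℚ)` is injective for all `j`,
  `K^{ab} ⊗ ℚ → H^{ab} ⊗ ℚ` is injective and `H^{ab}` is in the class. -/
  abelian : ∀ (G : Type) [Group G] (H : Subgroup G) [H.FiniteIndex] (K : Subgroup H) [K.Normal],
    C (H ⧸ K) → C (Abelianization H) → HInj (Abelianization.of : K →* Abelianization K) →
      AbInj K → C G
  /-- The same, if the rational homology of `K` vanishes above degree one,
  `K^{ab} ⊗ ℚ → H^{ab} ⊗ ℚ` is injective and `H^{ab}` is in the class. -/
  lowDim : ∀ (G : Type) [Group G] (H : Subgroup G) [H.FiniteIndex] (K : Subgroup H) [K.Normal],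
    C (H ⧸ K) → C (Abelianization H) → LowDim K → AbInj K → C G
  /-- Finitely generated abelian groups are in the class. -/
  finitelyGenerated : ∀ (A : Type) [CommGroup A] [Group.FG A], C A

end Run7.h16.GE
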