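import Pool.Agent.Run7.h16.LH.Final
import Pool.Agent.Run7.h16.LH.Def
import Pool.Agent.Run7.h16.NC.Final
import Pool.Agent.Run7.h16.DS.Free

/-!
Closure properties of classes of groups which are stable under detection in rational homology:
extensions with detected kernels, quotients by commutators, systems of retractions.
-/

set_option linter.unusedSectionVars false
set_option linter.unusedVariables false

namespace Run7.h16.GE

open CategoryTheory Monoid Pool.Agent.Y483 Pool.Agent.Y75.MQ Pool.Agent.Y483.PW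
  Pool.Agent.Y110.KW Pool.Agent.R615.KU Run7.h16.NV Run7.h16.LH Run7.h16.NC Run7.h16.DS

open scoped commutatorElement

noncomputable section

/-- Stability under detection in rational homology, direct products and overgroups of finite
index. -/
structure Basic (C : ∀ (G : Type) [Group G], Prop) : Prop where
  detection : ∀ (G : Type) [Group G], (∀ (j : ℕ) (x : HQ j G), x ≠ 0 →
    ∃ (K : Type) (_ : Group K) (f : G →* K), C K ∧ hqMap f j x ≠ 0) → C G
  prod : ∀ (G K : Type) [Group G] [Group K], C G → C K → C (G × K)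
  overgroup : ∀ (G : Type) [Group G] (H : Subgroup G) [H.FiniteIndex], C H → C G

variable {C : ∀ (G : Type) [Group G], Prop} (hC : Basic C)

include hC

theorem of_inj {G K : Type} [Group G] [Group K] (f : G →* K)
    (hf : ∀ (j : ℕ) (x : HQ j G), hqMap f j x = 0 → x = 0) (h : C K) : C G :=
  hC.detection G fun j x hx => ⟨K, inferInstance, f, h, fun h0 => hx (hf j x h0)⟩

/-- **Extensions with detected kernel.** -/
theorem ext_class {G : Type} [Group G] (K : Subgroup G) [K.Normal] (hQ : C (G ⧸ K))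
    (h : ∀ (j : ℕ) (x : HQ j K), x ≠ 0 → ∃ (A : Type) (_ : Group A) (φ : G →* A), C A ∧
      hqMap (φ.comp K.subtype) j x ≠ 0) : C G := by
  apply hC.detection
  intro j x hx
  by_contra hcon
  push Not at hcon
  apply hx
  refine lh_hq (π := QuotientGroup.mk' K) (K := K) (P := fun A _ φ => C A)
    (QuotientGroup.mk'_surjective K) (fun g => (QuotientGroup.eq_one_iff g).symm) ?_ j x ?_
  · intro q y hy
    by_contra hy0
    obtain ⟨A, iA, φ, hA, h1⟩ := h q y hy0
    exact h1 (hy A φ hA)
  · intro A _ φ hA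
    exact hcon (A × (G ⧸ K)) inferInstance (φ.prod (QuotientGroup.mk' K)) (hC.prod _ _ hA hQ)

/-- **Kernels detected by the abelianization of the group.** -/
theorem ext_ab {G : Type} [Group G] (K : Subgroup G) [K.Normal] (hQ : C (G ⧸ K))
    (hab : C (Abelianization G))
    (h1 : ∀ (j : ℕ) (x : HQ j K), x ≠ 0 →
      hqMap (Abelianization.of : K →* Abelianization K) j x ≠ 0)
    (h2 : ∀ g ∈ K, g ∈ commutator G → ∃ n : ℕ, 0 < n ∧ g ^ n ∈ (⁅K, K⁆ : Subgroup G)) :
    C G := by
  apply ext_class hC K hQ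
  intro j x hx
  refine ⟨Abelianization G, inferInstance, Abelianization.of, hab, fun h => h1 j x hx ?_⟩
  let f : Abelianization K →* Abelianization G :=
    Abelianization.lift (Abelianization.of.comp K.subtype)
  have hf : f.comp Abelianization.of = Abelianization.of.comp K.subtype := by
    ext k
    exact Abelianization.lift_apply_of _ _
  rw [← hf, hqMap_comp] at h
  refine ab_inj f ?_ j _ h
  intro a ha
  obtain ⟨k, rfl⟩ := QuotientGroup.mk'_surjective (commutator K) a
  have e1 : f (QuotientGroup.mk' (commutator K) k) = Abelianization.of (k : G) :=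
    DFunLike.congr_fun hf k
  rw [e1] at ha
  have h3 : (k : G) ∈ commutator G := (QuotientGroup.eq_one_iff _).mp ha
  obtain ⟨n, hn, h4⟩ := h2 k k.2 h3
  refine isOfFinOrder_iff_pow_eq_one.mpr ⟨n, hn, ?_⟩
  change (Abelianization.of k) ^ n = 1
  rw [← map_pow]
  refine (QuotientGroup.eq_one_iff _).mpr ?_
  have h5 : (commutator K).map K.subtype = ⁅K, K⁆ := Subgroup.map_subtype_commutator K
  rw [← h5] at h4
  obtain ⟨y, hy, hy'⟩ := h4
  have h6 : y = k ^ n := Subtype.ext hy'
  rw [← h6]
  exact hy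

/-- Finitely generated abelian groups. -/
theorem fg_class (hZ : ∀ n, C (Zn n)) (A : Type) [CommGroup A] [Group.FG A] : C A := by
  obtain ⟨n, f, hf⟩ := exists_zn (A := A)
  exact of_inj hC f (fun j x hx => ab_inj f hf j x hx) (hZ n)

/-- **Commutator quotients.** -/
theorem quot_class {G S : Type} [Group G] [Group S] (K : Subgroup G) [K.Normal] (f : G →* S)
    (hf : Function.Surjective f)
    (hk : ∀ g, f g = 1 → g ∈ K ∧ ∃ n : ℕ, 0 < n ∧ g ^ n ∈ (⁅K, K⁆ : Subgroup G))
    (hK : ∀ q, 2 ≤ q → ∀ x : HQ q K, x = 0) (h : C S) : C G :=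
  of_inj hC f (fun j x hx => Run7.h16.NC.hq_inj hf hk hK j x hx) h

theorem quotClosed_of
    (hmag : ∀ (P : Type) [Group P] (F : Subgroup P) [F.FiniteIndex] [IsFreeGroup F]
      (S : Subgroup P) [S.Normal], C (P ⧸ (⁅S, S⁆ : Subgroup P)))
    (hZ : ∀ n, C (Zn n))
    (hwr : ∀ (K V Γ : Type) [Group K] [Group Γ] [MulAction Γ V], C K →
      (∀ σ : Finset V, C (fixingSubgroup Γ (σ : Set V))) → C (FW K V Γ)) :
    QuotClosed C := by
  have hquot : ∀ (G : Type) [Group G] (K L : Subgroup G) [K.Normal] [L.Normal], OneDim K → L ≤ K →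
      (∀ g ∈ L, ∃ n : ℕ, 0 < n ∧ g ^ n ∈ (⁅K, K⁆ : Subgroup G)) → C (G ⧸ L) → C G := by
    intro G _ K L _ _ hK hLK hL h
    refine quot_class hC K (QuotientGroup.mk' L) (QuotientGroup.mk'_surjective L) (fun g hg => ?_)
      (fun q hq x => hK q hq x) h
    have hg' : g ∈ L := (QuotientGroup.eq_one_iff g).mp hg
    exact ⟨hLK hg', hL g hg'⟩
  have hcomm : ∀ (G : Type) [Group G] (K : Subgroup G) [K.Normal], OneDim K →
      C (G ⧸ (⁅K, K⁆ : Subgroup G)) → C G := by
    intro G _ K _ hK h
    exact hquot G K ⁅K, K⁆ hK (Subgroup.commutator_le_left K K)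
      (fun g hg => ⟨1, one_pos, by rwa [pow_one]⟩) h
  constructor
  · exact hquot
  · intro G _ K _ F _ _ h
    exact hcomm G K (fun q hq x => vf_vanish F q hq x) h
  · intro P _ F _ _ S L _ _ hL hdim
    have hS : C (P ⧸ (⁅S, S⁆ : Subgroup P)) := hmag P F S
    let f : P ⧸ L →* P ⧸ (⁅S, S⁆ : Subgroup P) :=
      QuotientGroup.map L ⁅S, S⁆ (MonoidHom.id P) hL
    have : (S.map (QuotientGroup.mk' L)).Normal :=
      Subgroup.Normal.map inferInstance _ (QuotientGroup.mk'_surjective L)
    refine quot_class hC (S.map (QuotientGroup.mk' L)) f ?_ ?_ (fun q hq x => hdim q hq x) hS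
    · intro y
      obtain ⟨p, rfl⟩ := QuotientGroup.mk'_surjective _ y
      exact ⟨(p : P ⧸ L), rfl⟩
    · intro g hg
      obtain ⟨p, rfl⟩ := QuotientGroup.mk'_surjective _ g
      have h1 : ((p : P) : P ⧸ (⁅S, S⁆ : Subgroup P)) = 1 := hg
      have h2 : p ∈ (⁅S, S⁆ : Subgroup P) := (QuotientGroup.eq_one_iff p).mp h1
      refine ⟨Subgroup.mem_map_of_mem _ (Subgroup.commutator_le_left S S h2), 1, one_pos, ?_⟩
      rw [pow_one, ← Subgroup.map_commutator]
      exact Subgroup.mem_map_of_mem _ h2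
  · intro V Q _ _ φ hφ hσ
    have hZ1 : C (Multiplicative ℤ) :=
      fg_class hC hZ (Multiplicative ℤ)
    have hW : C (RW (Multiplicative ℤ) V Q) := by
      have h1 : C (FW (Multiplicative ℤ) V Q) := hwr (Multiplicative ℤ) V Q hZ1 hσ
      exact of_inj hC (fwFrom (K := Multiplicative ℤ) (V := V) (Γ := Q))
        (fun j x hx => hqMap_inj j _ fwTo rfl (by rw [hx, map_zero])) h1
    let e : FreeGroup V ≃* (SemidirectProduct.inl : FreeGroup V →* FreeGroup V ⋊[φ] Q).range :=
      MonoidHom.ofInjective SemidirectProduct.inl_injective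
    have : IsFreeGroup (SemidirectProduct.inl : FreeGroup V →* FreeGroup V ⋊[φ] Q).range :=
      IsFreeGroup.ofMulEquiv e
    have : (SemidirectProduct.inl : FreeGroup V →* FreeGroup V ⋊[φ] Q).range.Normal := by
      rw [SemidirectProduct.range_inl_eq_ker_rightHom]
      infer_instance
    refine quot_class hC (SemidirectProduct.inl : FreeGroup V →* FreeGroup V ⋊[φ] Q).range
      (fW φ hφ) (fW_surjective φ hφ) ?_
      (fun q hq x => oneDim_of_flow one_ne_zero (Pool.Agent.R942.NV.flowFree _) q hq x) hW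
    rintro ⟨n, q⟩ hg
    have h1 : q = 1 := congrArg SemidirectProduct.right hg
    have h2 : aF V n = 1 := congrArg SemidirectProduct.left hg
    subst h1
    have h3 : n ∈ commutator (FreeGroup V) := by
      apply ex_zero
      ext v
      exact congrArg (fun m : RF (Multiplicative ℤ) V => (m.1 v).toAdd) h2
    refine ⟨⟨n, rfl⟩, 1, one_pos, ?_⟩
    rw [pow_one, MonoidHom.range_eq_map, ← Subgroup.map_commutator]
    exact ⟨n, h3, rfl⟩

theorem retr_class {G : Type} [Group G] (K : Subgroup G) [K.Normal] (I : Type) [Nonempty I]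
    (s : RetrSys K I) (h : ∀ i : I, C (s.f i).range) : C G := by
  apply hC.detection
  intro j x hx
  by_contra hcon
  push Not at hcon
  apply hx
  refine sys_hq (π := QuotientGroup.mk' K) (K := K) (QuotientGroup.mk'_surjective K)
    (fun g => (QuotientGroup.eq_one_iff g).symm) s.f (fun i g => QuotientGroup.eq.mpr (s.quot i g))
    s.e s.restr s.comm s.idem s.mul (fun n x => s.gen n x) j x (fun i => ?_)
  have e : s.f i = (s.f i).range.subtype.comp (s.f i).rangeRestrict := rfl
  rw [e, hqMap_comp, hcon _ _ (s.f i).rangeRestrict (h i), map_zero]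

theorem loc_class {G : Type} [Group G] (K : Subgroup G) [K.Normal] {V : Type} [Nonempty V]
    {P : V → Type} [∀ v, Group (P v)] {R : Set (CoprodI P)} (hR : IsLocal R) (θ : Quo R ≃* K)
    (h : ∀ σ : Finset V, σ.Nonempty → (∀ u ∈ σ, ∀ v ∈ σ, u ≠ v → Linked R u v) →
      ∃ B : Subgroup G, Lifts K B ((para R (σ : Set V)).map (K.subtype.comp θ.toMonoidHom)) ∧
        C B) : C G := by
  classical
  let B : Finset V → Subgroup G := fun σ =>
    if hσ : σ.Nonempty ∧ (∀ u ∈ σ, ∀ v ∈ σ, u ≠ v → Linked R u v) then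
      (h σ hσ.1 hσ.2).choose else ⊤
  have hB : ∀ σ : Finset V, σ.Nonempty → (∀ u ∈ σ, ∀ v ∈ σ, u ≠ v → Linked R u v) →
      Lifts K (B σ) ((para R (σ : Set V)).map (K.subtype.comp θ.toMonoidHom)) ∧
        C (B σ) := by
    intro σ h1 h2
    have e : B σ = (h σ h1 h2).choose := dif_pos ⟨h1, h2⟩
    rw [e]
    exact (h σ h1 h2).choose_spec
  have hCo : Compl θ B := fun σ h1 h2 => (hB σ h1 h2).1
  apply hC.detection
  intro j x hx
  obtain ⟨σ, f, hf⟩ := loc_hq hR θ hCo j x hx
  exact ⟨B σ.1, inferInstance, f, (hB σ.1 σ.2.1 σ.2.2).2, hf⟩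

theorem graph_class {G : Type} [Group G] (K : Subgroup G) [K.Normal] {V : Type} [Nonempty V]
    {P : V → Type} [∀ v, Group (P v)] (Λ : SimpleGraph V) (θ : GP P Λ ≃* K)
    (h : ∀ σ : Finset V, σ.Nonempty → Λ.IsClique (σ : Set V) →
      ∃ B : Subgroup G, Lifts K B
        ((para (graphRel Λ) (σ : Set V)).map (K.subtype.comp θ.toMonoidHom)) ∧ C B) :
    C G := by
  refine loc_class hC K (graphRel_local Λ) θ fun σ h1 h2 => h σ h1 ?_
  intro a ha b hb hab
  exact graphRel_linked Λ hab (h2 a ha b hb hab)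

theorem free_class {G : Type} [Group G] (K : Subgroup G) [K.Normal] {V : Type} [Nonempty V]
    {P : V → Type} [∀ v, Group (P v)] (θ : CoprodI P ≃* K)
    (h : ∀ v : V, ∃ B : Subgroup G, Lifts K B
      ((K.subtype.comp θ.toMonoidHom).comp (CoprodI.of : P v →* CoprodI P)).range ∧ C B) :
    C G := by
  have e0 : Subgroup.normalClosure (∅ : Set (CoprodI P)) = ⊥ := Subgroup.normalClosure_empty
  let q : Quo (∅ : Set (CoprodI P)) ≃* CoprodI P :=
    (QuotientGroup.quotientMulEquivOfEq e0).trans QuotientGroup.quotientBot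
  have hq : ∀ v (x : P v), q (fac (∅ : Set (CoprodI P)) v x) = CoprodI.of x := by
    intro v x
    rfl
  refine loc_class hC K (empty_local P) (q.trans θ) fun σ h1 h2 => ?_
  obtain ⟨v, hv⟩ := h1
  have hσ : σ = {v} := by
    apply Finset.eq_singleton_iff_unique_mem.mpr
    refine ⟨hv, fun u hu => ?_⟩
    by_contra huv
    obtain ⟨r, hr, _⟩ := h2 u hu v hv huv
    exact hr
  obtain ⟨B, hB1, hB2⟩ := h v
  refine ⟨B, ?_, hB2⟩
  have e : (para (∅ : Set (CoprodI P)) (σ : Set V)).map
      (K.subtype.comp (q.trans θ).toMonoidHom) =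
      ((K.subtype.comp θ.toMonoidHom).comp (CoprodI.of : P v →* CoprodI P)).range := by
    rw [hσ, Finset.coe_singleton]
    have e1 : para (∅ : Set (CoprodI P)) {v} = (fac (∅ : Set (CoprodI P)) v).range := by
      unfold para
      simp
    rw [e1, MonoidHom.map_range]
    congr 1
  rw [e]
  exact hB1

theorem norm_class {G : Type} [Group G] (K : Subgroup G) [K.Normal] {V : Type}
    [Nonempty V] {P : V → Type} [∀ v, Group (P v)] [∀ v, Nontrivial (P v)] (θ : CoprodI P ≃* K)
    (h1 : ∀ v : V, Subgroup.normalizer (factor K θ v : Set G) ⊔ K = ⊤)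
    (h2 : ∀ v : V, C (Subgroup.normalizer (factor K θ v : Set G))) : C G := by
  refine free_class hC K θ fun v => ⟨Subgroup.normalizer (factor K θ v : Set G), ⟨h1 v, ?_⟩, h2 v⟩
  apply le_antisymm
  · rintro b ⟨hb1, hb2⟩
    obtain ⟨w, hw⟩ := θ.surjective ⟨b, hb2⟩
    have hw2 : ((θ w : K) : G) = b := congrArg Subtype.val hw
    obtain ⟨x, hx⟩ := exists_ne (1 : P v)
    have h3 : b * ((θ (CoprodI.of x) : K) : G) * b⁻¹ ∈ factor K θ v :=
      (Subgroup.mem_normalizer_iff.mp hb1 _).mp ⟨x, rfl⟩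
    obtain ⟨y, hy⟩ := h3
    have hy2 : ((θ (CoprodI.of y) : K) : G) = b * ((θ (CoprodI.of x) : K) : G) * b⁻¹ := hy
    have h4 : w * (CoprodI.of x : CoprodI P) * w⁻¹ = CoprodI.of y := by
      apply θ.injective
      apply Subtype.ext
      rw [hy2, map_mul, map_mul, map_inv, Subgroup.coe_mul, Subgroup.coe_mul, Subgroup.coe_inv,
        hw2]
    obtain ⟨z, hz⟩ := norm_factor v w x y hx h4
    refine ⟨z, ?_⟩
    rw [← hw2, ← hz]
    rfl
  · intro b hb
    refine ⟨Subgroup.le_normalizer hb, ?_⟩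
    obtain ⟨z, rfl⟩ := hb
    exact (θ _).2

theorem sysClosed_of : SysClosed C := by
  constructor
  · intro G _ H _ K _ I _ s h
    exact hC.overgroup G H (retr_class hC K I s h)
  · intro G _ H _ K _ V _ P _ R hR θ h
    exact hC.overgroup G H (loc_class hC K hR θ h)
  · intro G _ H _ K _ V _ P _ Λ θ h
    exact hC.overgroup G H (graph_class hC K Λ θ h)
  · intro G _ H _ K _ V _ P _ _ θ h1 h2
    exact hC.overgroup G H (norm_class hC K θ h1 h2)

end

end Run7.h16.GE
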