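import Pool.Agent.Run7.h16.GE.KC
import Pool.Agent.R615.KU.DetK

/-!
The closure properties of the class of the groups with injective rational assembly maps in algebraic
`K`-theory
-/

namespace Run7.h16.GE

open Pool.Agent.Y477.IW Pool.Agent.Y483.PW Pool.Agent.R615.KU Pool.Agent.R615.K1 Run7.h16.NC
  Run7.h16.DS

variable (R : Type) [Ring R]

theorem hasPT_k1 : HasPT (rat (kgr R)) := hasPT_rat (hasPTI_kgr R)

theorem extClosed_detK : ClosedExtensions (fun G _ => DetK R G) := extClosed_det (hasPT_k1 R)

theorem quotClosed_detK : QuotClosed (fun G _ => DetK R G) := quotClosed_det (hasPT_k1 R)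

theorem sysClosed_detK : SysClosed (fun G _ => DetK R G) := sysClosed_det (hasPT_k1 R)

end Run7.h16.GE
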