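import Pool.Agent.Y483.CS.Fun
import Pool.Agent.Y75.MQ.Stm
import Pool.Agent.R615.KU.Cls

/-!
Index theory of closed spin manifolds with values in the rational `K`-theory of the maximal group
C*-algebra of the fundamental group.
-/

namespace Run7.h16.GE

open CategoryTheory DirectSum Pool.Agent.Y483 Pool.Agent.Y483.CS Pool.Agent.Y75.MQ
  Pool.Agent.R615.KU

/-- The class of the groups `G` with injective rational assembly maps: for every group `T` and every
family of transformations `α_{j,i} : H_j(-; ℚ) → ℚ ⊗ K_0(C*_max (- × T))`, `i ∈ I_j`, natural in the
group and linearly independent on `ℤ^j` for each `j`, the sum of all the `α_{j,i}` is injective on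
`G`. -/
def InjAssembly (G : Type) [Group G] : Prop := Det kC G

/-- Closed spin manifolds and the index theory of Rosenberg. -/
structure SpinTheory where
  /-- The closed spin manifolds (of all dimensions) -/
  Mfd : Type
  /-- The fundamental group -/
  grp : Mfd → GrpCat.{0}
  /-- The manifold has a metric of positive scalar curvature -/
  Psc : Mfd → Prop
  /-- The universal covering is contractible -/
  Aspherical : Mfd → Prop
  /-- The infinite cyclic group -/
  T : GrpCat.{0}
  /-- The rational assembly map `H_j(G; ℚ) → ℚ ⊗ K_0(C*_max (G × T))`, that is, the composite of the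
  inclusion (`j` even) or the product with the fundamental class of the circle (`j` odd) with the
  inverse of the Chern character and the Baum–Connes map. -/
  α : ∀ j : ℕ, hq j ⟶ timesF T ⋙ kC
  /-- The image of `Â(M) ∩ [M]` in the rational homology of the fundamental group -/
  cls : ∀ M, ⨁ j : ℕ, (hq j).obj (grp M)
  /-- The assembly map is not zero on the torus of dimension `j`. -/
  torus : ∀ j, ((α j).app (zn j)).hom ≠ 0
  /-- The index vanishes if there is a metric of positive scalar curvature. -/
  vanish : ∀ M, Psc M → DirectSum.toModule ℚ ℕ _ (fun j => ((α j).app (grp M)).hom) (cls M) = 0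
  /-- The homology class of an aspherical manifold is not zero. -/
  fundamental : ∀ M, Aspherical M → cls M ≠ 0

/-- Closed aspherical spin manifolds whose fundamental group is in the class `C` have no metric of
positive scalar curvature. -/
def NoPositive (C : ∀ (G : Type) [Group G], Prop) : Prop :=
  ∀ (S : SpinTheory) (M : S.Mfd), S.Aspherical M → C (S.grp M) → ¬ S.Psc M

end Run7.h16.GE
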