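import Pool.Agent.Run7.h16.GE.Ext
import Pool.Agent.Run7.h16.GE.Def
import Pool.Agent.Run7.h16.GE.Spin
import Pool.Agent.R615.KU.PTk
import Pool.Agent.Y483.CS.PT
import Pool.Agent.Y983.PW.T

/-!
The closure properties of the class of the groups with injective rational assembly maps
-/

set_option linter.unusedSectionVars false
set_option linter.unusedVariables false

namespace Run7.h16.GE

open CategoryTheory Monoid DirectSum Pool.Agent.Y483 Pool.Agent.Y483.CS Pool.Agent.Y75.MQ
  Pool.Agent.Y483.PW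
  Pool.Agent.Y110.KW Pool.Agent.R615.KU Pool.Agent.R793.Mag Pool.Agent.R942.NV Run7.h16.NV
  Run7.h16.LH Run7.h16.NC Run7.h16.DS

noncomputable section

section Gen

variable {E : GrpCat.{0} ⥤ ModuleCat.{0} ℚ} (hE : HasPT E)

include hE

theorem basic_det : Basic (fun G _ => Det E G) where
  detection := fun _ _ h => Det.detect h
  prod := fun _ _ _ _ h1 h2 => h1.prod h2
  overgroup := fun _ _ H _ h => Det.virt hE H h

theorem magnus_det (P : Type) [Group P] (F : Subgroup P) [F.FiniteIndex] [IsFreeGroup F]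
    (S : Subgroup P) [S.Normal] : Det E (P ⧸ (⁅S, S⁆ : Subgroup P)) := by
  intro T _ I α hα
  have hT : HasTransfers (timesF T ⋙ E) :=
    hasTransfers_times (hasPairTransfers_of_PT hE) T
  rw [kerFam_eq]
  exact ker_flow S _ _ hT (by rw [mul_one]; exact Subgroup.FiniteIndex.index_ne_zero)
    (flowFin (flowFree F)) (fun n => ker_Zn_of_li α hα n)

theorem quotClosed_det : QuotClosed (fun G _ => Det E G) :=
  quotClosed_of (basic_det hE) (fun P _ F _ _ S _ => magnus_det hE P F S) (fun n => Det.zn n)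
    (fun _ _ _ _ _ _ h1 h2 => Det.fw hE h1 h2)

theorem sysClosed_det : SysClosed (fun G _ => Det E G) := sysClosed_of (basic_det hE)

theorem extClosed_det : ClosedExtensions (fun G _ => Det E G) where
  detected := fun G _ H _ K _ hQ h =>
    (basic_det hE).overgroup G H (ext_class (basic_det hE) K hQ h)
  abelian := fun G _ H _ K _ hQ hab h1 h2 =>
    (basic_det hE).overgroup G H (ext_ab (basic_det hE) K hQ hab h1 h2)
  lowDim := fun G _ H _ K _ hQ hab h1 h2 =>
    (basic_det hE).overgroup G H (ext_ab (basic_det hE) K hQ hab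
      (fun j x hx h => hx (one_dim (fun q hq x => h1 q hq x) j x h)) h2)
  finitelyGenerated := fun A _ _ => fg_class (basic_det hE) (fun n => Det.zn n) A

end Gen

theorem sum_aux {M : ℕ → Type} [∀ j, AddCommGroup (M j)] [∀ j, Module ℚ (M j)] {N : Type}
    [AddCommGroup N] [Module ℚ N] {_ : DecidableEq (Σ _ : ℕ, Unit)} (f : ∀ j, M j →ₗ[ℚ] N)
    (h : LinearMap.ker (DirectSum.toModule ℚ (Σ _ : ℕ, Unit) N fun p => f p.1) = ⊥)
    (x : ⨁ j, M j) (hx : DirectSum.toModule ℚ ℕ N f x = 0) : x = 0 := by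
  let e : (⨁ j : ℕ, M j) →ₗ[ℚ] (⨁ p : Σ _ : ℕ, Unit, M p.1) :=
    DirectSum.toModule ℚ ℕ _ fun j =>
      DirectSum.lof ℚ (Σ _ : ℕ, Unit) (fun p => M p.1) ⟨j, ()⟩
  let g : (⨁ p : Σ _ : ℕ, Unit, M p.1) →ₗ[ℚ] (⨁ j : ℕ, M j) :=
    DirectSum.toModule ℚ (Σ _ : ℕ, Unit) _ fun p => DirectSum.lof ℚ ℕ M p.1
  have hge : g ∘ₗ e = LinearMap.id := by
    apply DirectSum.linearMap_ext
    intro j
    apply LinearMap.ext
    intro y
    simp only [e, g, LinearMap.comp_apply, DirectSum.toModule_lof, LinearMap.id_apply]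
  have h2 : (DirectSum.toModule ℚ (Σ _ : ℕ, Unit) N fun p => f p.1) ∘ₗ e =
      DirectSum.toModule ℚ ℕ N f := by
    apply DirectSum.linearMap_ext
    intro j
    apply LinearMap.ext
    intro y
    simp only [e, LinearMap.comp_apply, DirectSum.toModule_lof]
  have h3 : e x ∈ LinearMap.ker (DirectSum.toModule ℚ (Σ _ : ℕ, Unit) N fun p => f p.1) := by
    rw [LinearMap.mem_ker, ← LinearMap.comp_apply, h2, hx]
  rw [h, Submodule.mem_bot] at h3
  have h4 := DFunLike.congr_fun hge x
  rw [LinearMap.comp_apply, h3, map_zero, LinearMap.id_apply] at h4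
  exact h4.symm

theorem noPositive : NoPositive (fun G _ => InjAssembly G) := by
  intro S M hM hG hP
  have h := hG S.T (fun _ => Unit) (fun j _ => S.α j) (fun j =>
    LinearIndependent.of_subsingleton () (S.torus j))
  exact S.fundamental M hM (sum_aux (fun j => ((S.α j).app (S.grp M)).hom)
    h (S.cls M) (S.vanish M hP))

end

end Run7.h16.GE
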